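import Pool.Agent.Lib_helper56.ST.Plane
import Pool.Agent.Lib_helper56.DD_R

/-!
# The crossing lemma for straight line drawings
-/

set_option autoImplicit false

namespace ST

open Finset Classical

noncomputable section

variable {V : Finset Pt} {E : Finset (Pt × Pt)}

/-- ordered crossing pairs -/
def crs (E : Finset (Pt × Pt)) : Finset ((Pt × Pt) × (Pt × Pt)) :=
  (E ×ˢ E).filter fun p => p.1 ≠ p.2 ∧ Cross p.1 p.2

lemma mem_crs {p : (Pt × Pt) × (Pt × Pt)} :
    p ∈ crs E ↔ (p.1 ∈ E ∧ p.2 ∈ E) ∧ p.1 ≠ p.2 ∧ Cross p.1 p.2 := by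
  unfold crs
  rw [Finset.mem_filter, Finset.mem_product]

/-- the edges inside a vertex set -/
def ind (E : Finset (Pt × Pt)) (S : Finset Pt) : Finset (Pt × Pt) :=
  E.filter fun e => {e.1, e.2} ⊆ S

lemma mem_ind {S : Finset Pt} {e : Pt × Pt} : e ∈ ind E S ↔ e ∈ E ∧ e.1 ∈ S ∧ e.2 ∈ S := by
  unfold ind
  rw [Finset.mem_filter, Finset.insert_subset_iff, Finset.singleton_subset_iff]

lemma Drawing.mono (D : Drawing V E) {S : Finset Pt} {F : Finset (Pt × Pt)} (hS : S ⊆ V)
    (hF : ∀ e ∈ F, e ∈ E ∧ e.1 ∈ S ∧ e.2 ∈ S) : Drawing S F where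
  left_mem e he := (hF e he).2.1
  right_mem e he := (hF e he).2.2
  lt e he := D.lt e (hF e he).1
  inj u hu w hw := D.inj u (hS hu) w (hS hw)
  novert e he u hu := D.novert e (hF e he).1 u (hS hu)

/-- `|E| ≤ 4 |V| + cr` -/
theorem Drawing.card_le_add (D : Drawing V E) : E.card ≤ 4 * V.card + (crs E).card := by
  have key : ∀ n : ℕ, ∀ E : Finset (Pt × Pt), E.card = n → Drawing V E →
      E.card ≤ 4 * V.card + (crs E).card := by
    intro n
    induction n with
    | zero => intro E hE _; omega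
    | succ n ih =>
      intro E hE D
      by_cases h : ∀ e ∈ E, ∀ f ∈ E, e ≠ f → ¬ Cross e f
      · exact (D.card_le h).trans (Nat.le_add_right _ _)
      · push Not at h
        obtain ⟨e, he, f, hf, hef, hc⟩ := h
        have D' : Drawing V (E.erase e) := D.mono subset_rfl (fun g hg => by
          have := Finset.mem_of_mem_erase hg
          exact ⟨this, D.left_mem g this, D.right_mem g this⟩)
        have hcard : (E.erase e).card = n := by
          rw [Finset.card_erase_of_mem he, hE]; rfl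
        have h1 := ih (E.erase e) hcard D'
        have h2 : (crs (E.erase e)).card < (crs E).card := by
          apply Finset.card_lt_card
          rw [Finset.ssubset_iff_of_subset]
          · refine ⟨(e, f), mem_crs.2 ⟨⟨he, hf⟩, hef, hc⟩, ?_⟩
            rw [mem_crs]
            rintro ⟨⟨h3, -⟩, -⟩
            exact absurd rfl (Finset.ne_of_mem_erase h3)
          · intro p hp
            rw [mem_crs] at hp ⊢
            exact ⟨⟨Finset.mem_of_mem_erase hp.1.1, Finset.mem_of_mem_erase hp.1.2⟩, hp.2⟩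
        omega
  exact key _ E rfl D

lemma Drawing.not_on (D : Drawing V E) {e f : Pt × Pt} (he : e ∈ E) (hf : f ∈ E) (hne : e ≠ f)
    (hs : slp e = slp f) (hv : ∀ x, val e x = val f x) : ¬ ∃ x, e.1.1 < x ∧ x < e.2.1 ∧ f.1.1 < x ∧ x < f.2.1 := by
  -- no endpoint of one strictly inside the other
  have key : ∀ e ∈ E, ∀ f ∈ E, (∀ x, val e x = val f x) →
      (¬ (e.1.1 < f.1.1 ∧ f.1.1 < e.2.1)) ∧ (¬ (e.1.1 < f.2.1 ∧ f.2.1 < e.2.1)) := by
    intro e he f hf hv
    constructor
    · rintro ⟨h1, h2⟩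
      apply D.novert e he f.1 (D.left_mem f hf) h1 h2
      rw [hv, val_left (D.lt f hf)]
    · rintro ⟨h1, h2⟩
      apply D.novert e he f.2 (D.right_mem f hf) h1 h2
      rw [hv, val_right]
  rintro ⟨x, h1, h2, h3, h4⟩
  have k1 := key e he f hf hv
  have k2 := key f hf e he (fun x => (hv x).symm)
  have a1 : e.1.1 = f.1.1 := by
    rcases lt_trichotomy e.1.1 f.1.1 with h | h | h
    · exact absurd ⟨h, h3.trans h2⟩ k1.1
    · exact h
    · exact absurd ⟨h, h1.trans h4⟩ k2.1
  have a2 : e.2.1 = f.2.1 := by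
    rcases lt_trichotomy e.2.1 f.2.1 with h | h | h
    · exact absurd ⟨h3.trans h2, h⟩ k2.2
    · exact h
    · exact absurd ⟨h1.trans h4, h⟩ k1.2
  exact hne (Prod.ext (D.inj _ (D.left_mem e he) _ (D.left_mem f hf) a1)
    (D.inj _ (D.right_mem e he) _ (D.right_mem f hf) a2))

/-- crossing edges have four distinct end points -/
lemma Drawing.card_four (D : Drawing V E) {e f : Pt × Pt} (he : e ∈ E) (hf : f ∈ E) (hne : e ≠ f)
    (hc : Cross e f) : ({e.1, e.2, f.1, f.2} : Finset Pt).card = 4 := by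
  obtain ⟨x, h1, h2, h3, h4, h5⟩ := hc
  have hslp : slp e ≠ slp f := by
    intro hs
    apply D.not_on he hf hne hs _ ⟨x, h1, h2, h3, h4⟩
    intro z
    unfold val at h5 ⊢
    rw [hs] at h5 ⊢
    linarith
  have hpt : ∀ y, val e y = val f y → y = x := by
    intro y hy
    by_contra hyx
    apply hslp
    have hd : (slp e - slp f) * (y - x) = 0 := by
      unfold val at h5 hy
      linear_combination hy - h5
    rcases mul_eq_zero.1 hd with h | h
    · linarith
    · exact absurd (by linarith) hyx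
  have le := D.lt e he
  have lf := D.lt f hf
  have n1 : e.1 ≠ e.2 := by intro h; rw [h] at le; exact lt_irrefl _ le
  have n2 : e.1 ≠ f.1 := by
    intro h
    have := hpt e.1.1 (by rw [val_left le]; rw [h]; rw [val_left lf])
    linarith
  have n3 : e.1 ≠ f.2 := by intro h; rw [h] at h1; linarith
  have n4 : e.2 ≠ f.1 := by intro h; rw [h] at h2; linarith
  have n5 : e.2 ≠ f.2 := by
    intro h
    have := hpt e.2.1 (by rw [val_right]; rw [h]; rw [val_right])
    linarith
  have n6 : f.1 ≠ f.2 := by intro h; rw [h] at lf; exact lt_irrefl _ lf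
  rw [Finset.card_insert_of_notMem, Finset.card_insert_of_notMem, Finset.card_insert_of_notMem,
    Finset.card_singleton]
  · simpa using n6
  · simp [n4, n5]
  · simp [n1, n2, n3]

open Pool.Agent.DD in
lemma ex_card {ι α : Type*} [DecidableEq α] (p : ℝ) (A : Finset α) (s : Finset ι)
    (g : ι → Finset α) (k : ℕ) (hg : ∀ i ∈ s, g i ⊆ A) (hk : ∀ i ∈ s, (g i).card = k) :
    ex p A (fun R => ((s.filter fun i => g i ⊆ R).card : ℝ)) = s.card * p ^ k := by
  have h1 : ∀ R : Finset α, ((s.filter fun i => g i ⊆ R).card : ℝ) =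
      ∑ i ∈ s, (if g i ⊆ R ∧ Disjoint (∅ : Finset α) R then (1:ℝ) else 0) := by
    intro R
    rw [Finset.card_filter]
    push_cast
    refine Finset.sum_congr rfl fun i _ => ?_
    simp
  have h2 : ex p A (fun R => ((s.filter fun i => g i ⊆ R).card : ℝ)) =
      ∑ i ∈ s, ex p A (fun R => if g i ⊆ R ∧ Disjoint (∅ : Finset α) R then (1:ℝ) else 0) := by
    unfold ex
    simp_rw [h1]
    rw [Finset.sum_comm]
    refine Finset.sum_congr rfl fun R _ => ?_
    rw [Finset.mul_sum]
  rw [h2]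
  have h3 : ∀ i ∈ s, ex p A (fun R => if g i ⊆ R ∧ Disjoint (∅ : Finset α) R then (1:ℝ) else 0) =
      p ^ k := by
    intro i hi
    rw [ex_pair p A (g i) ∅ (hg i hi) (Finset.empty_subset _) (Finset.disjoint_empty_right _),
      hk i hi]
    simp
  rw [Finset.sum_congr rfl h3, Finset.sum_const, nsmul_eq_mul]

open Pool.Agent.DD in
lemma ex_mono {α : Type*} [DecidableEq α] {p : ℝ} (hp : 0 ≤ p) (hp1 : p ≤ 1) (A : Finset α)
    {f g : Finset α → ℝ} (h : ∀ R ⊆ A, f R ≤ g R) : ex p A f ≤ ex p A g := by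
  unfold ex
  apply Finset.sum_le_sum
  intro R hR
  rw [Finset.mem_powerset] at hR
  have : 0 ≤ p ^ R.card * (1 - p) ^ (A.card - R.card) :=
    mul_nonneg (pow_nonneg hp _) (pow_nonneg (by linarith) _)
  exact mul_le_mul_of_nonneg_left (h R hR) this

open Pool.Agent.DD in
lemma ex_add {α : Type*} [DecidableEq α] (p : ℝ) (A : Finset α) (f g : Finset α → ℝ) :
    ex p A (fun R => f R + g R) = ex p A f + ex p A g := by
  unfold ex
  rw [← Finset.sum_add_distrib]
  refine Finset.sum_congr rfl fun R _ => ?_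
  ring

open Pool.Agent.DD in
lemma ex_smul {α : Type*} [DecidableEq α] (p c : ℝ) (A : Finset α) (f : Finset α → ℝ) :
    ex p A (fun R => c * f R) = c * ex p A f := by
  unfold ex
  rw [Finset.mul_sum]
  refine Finset.sum_congr rfl fun R _ => ?_
  ring

/-- sampled version -/
theorem Drawing.sampled (D : Drawing V E) {p : ℝ} (hp : 0 ≤ p) (hp1 : p ≤ 1) :
    p ^ 2 * E.card ≤ 4 * p * V.card + p ^ 4 * (crs E).card := by
  have hE : ∀ e ∈ E, ({e.1, e.2} : Finset Pt) ⊆ V := by
    intro e he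
    rw [Finset.insert_subset_iff, Finset.singleton_subset_iff]
    exact ⟨D.left_mem e he, D.right_mem e he⟩
  have hE2 : ∀ e ∈ E, ({e.1, e.2} : Finset Pt).card = 2 := by
    intro e he
    rw [Finset.card_pair]
    intro h
    have := D.lt e he
    rw [h] at this
    exact lt_irrefl _ this
  have e1 : Pool.Agent.DD.ex p V (fun R => ((E.filter fun e => {e.1, e.2} ⊆ R).card : ℝ)) =
      E.card * p ^ 2 := ex_card p V E (fun e => {e.1, e.2}) 2 hE hE2
  have e2 : Pool.Agent.DD.ex p V (fun R => ((V.filter fun v => ({v} : Finset Pt) ⊆ R).card : ℝ)) =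
      V.card * p ^ 1 := ex_card p V V (fun v => {v}) 1
        (fun v hv => Finset.singleton_subset_iff.2 hv) (fun v _ => Finset.card_singleton v)
  have e3 : Pool.Agent.DD.ex p V
      (fun R => (((crs E).filter fun q => {q.1.1, q.1.2, q.2.1, q.2.2} ⊆ R).card : ℝ)) =
      (crs E).card * p ^ 4 := by
    apply ex_card p V (crs E) (fun q => {q.1.1, q.1.2, q.2.1, q.2.2}) 4
    · intro q hq
      rw [mem_crs] at hq
      rw [Finset.insert_subset_iff, Finset.insert_subset_iff]
      exact ⟨D.left_mem _ hq.1.1, D.right_mem _ hq.1.1, hE _ hq.1.2⟩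
    · intro q hq
      rw [mem_crs] at hq
      exact D.card_four hq.1.1 hq.1.2 hq.2.1 hq.2.2
  have hle : ∀ R ⊆ V, ((E.filter fun e => {e.1, e.2} ⊆ R).card : ℝ) ≤
      4 * ((V.filter fun v => ({v} : Finset Pt) ⊆ R).card : ℝ) +
      (((crs E).filter fun q => {q.1.1, q.1.2, q.2.1, q.2.2} ⊆ R).card : ℝ) := by
    intro R hR
    have D' : Drawing R (ind E R) := D.mono hR (fun e he => mem_ind.1 he)
    have h1 := D'.card_le_add
    have h2 : (V.filter fun v => ({v} : Finset Pt) ⊆ R) = R := by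
      ext v
      rw [Finset.mem_filter, Finset.singleton_subset_iff]
      exact ⟨fun h => h.2, fun h => ⟨hR h, h⟩⟩
    have h3 : (crs (ind E R)).card ≤
        ((crs E).filter fun q => {q.1.1, q.1.2, q.2.1, q.2.2} ⊆ R).card := by
      apply Finset.card_le_card
      intro q hq
      rw [mem_crs, mem_ind, mem_ind] at hq
      rw [Finset.mem_filter, mem_crs, Finset.insert_subset_iff, Finset.insert_subset_iff,
        Finset.insert_subset_iff, Finset.singleton_subset_iff]
      exact ⟨⟨⟨hq.1.1.1, hq.1.2.1⟩, hq.2⟩, hq.1.1.2.1, hq.1.1.2.2, hq.1.2.2.1, hq.1.2.2.2⟩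
    have h4 : (E.filter fun e => {e.1, e.2} ⊆ R).card ≤ 4 * R.card +
        ((crs E).filter fun q => {q.1.1, q.1.2, q.2.1, q.2.2} ⊆ R).card :=
      h1.trans (Nat.add_le_add_left h3 _)
    rw [h2]
    exact_mod_cast h4
  have := ex_mono hp hp1 V hle
  rw [ex_add, ex_smul, e1, e2, e3] at this
  nlinarith

/-- **Crossing lemma** (ordered crossing pairs). -/
theorem Drawing.crossing_lemma (D : Drawing V E) (h : 8 * V.card ≤ E.card) :
    E.card ^ 3 ≤ 128 * V.card ^ 2 * (crs E).card := by
  rcases Nat.eq_zero_or_pos E.card with h0 | h0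
  · rw [h0]; simp
  have hV : 0 < V.card := by
    obtain ⟨e, he⟩ := Finset.card_pos.1 h0
    exact Finset.card_pos.2 ⟨_, D.left_mem e he⟩
  have hVr : (0:ℝ) < V.card := by exact_mod_cast hV
  have hEr : (0:ℝ) < E.card := by exact_mod_cast h0
  have hr : (8:ℝ) * V.card ≤ E.card := by exact_mod_cast h
  set p : ℝ := 8 * V.card / E.card with hp
  have hp0 : 0 < p := by positivity
  have hp1 : p ≤ 1 := by rw [hp, div_le_one hEr]; exact hr
  have h1 := D.sampled hp0.le hp1
  have h2 : p * E.card = 8 * V.card := by rw [hp]; field_simp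
  have h3 : p * (4 * V.card) ≤ p * (p ^ 3 * (crs E).card) := by nlinarith
  have h4 : (4:ℝ) * V.card ≤ p ^ 3 * (crs E).card := le_of_mul_le_mul_left h3 hp0
  have h5 : (E.card : ℝ) ^ 3 * (4 * V.card) ≤ (8 * V.card) ^ 3 * (crs E).card := by
    calc (E.card : ℝ) ^ 3 * (4 * V.card) ≤ (E.card : ℝ) ^ 3 * (p ^ 3 * (crs E).card) := by
          apply mul_le_mul_of_nonneg_left h4; positivity
      _ = (p * E.card) ^ 3 * (crs E).card := by ring
      _ = _ := by rw [h2]
  have h6 : (E.card : ℝ) ^ 3 ≤ 128 * V.card ^ 2 * (crs E).card := by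
    have h7 : (4 * V.card : ℝ) * (E.card : ℝ) ^ 3 ≤
        (4 * V.card : ℝ) * (128 * V.card ^ 2 * (crs E).card) := by nlinarith
    exact le_of_mul_le_mul_left h7 (by positivity)
  exact_mod_cast h6

end

end ST
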