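import Pool.Agent.Lib_helper56.ST.Crossing

/-!
# Szemerédi–Trotter for graphs of affine functions
-/

set_option autoImplicit false

namespace ST

open Finset Classical

noncomputable section

/-- points of `Q` on the line `y = l.1 * x + l.2` -/
def pts (Q : Finset Pt) (l : ℝ × ℝ) : Finset Pt := Q.filter fun q => q.2 = l.1 * q.1 + l.2

lemma mem_pts {Q : Finset Pt} {l : ℝ × ℝ} {q : Pt} :
    q ∈ pts Q l ↔ q ∈ Q ∧ q.2 = l.1 * q.1 + l.2 := by
  unfold pts; rw [Finset.mem_filter]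

/-- consecutive points on a line -/
def cns (Q : Finset Pt) (l : ℝ × ℝ) : Finset (Pt × Pt) :=
  (pts Q l ×ˢ pts Q l).filter fun e => e.1.1 < e.2.1 ∧
    ∀ s ∈ pts Q l, ¬ (e.1.1 < s.1 ∧ s.1 < e.2.1)

lemma mem_cns {Q : Finset Pt} {l : ℝ × ℝ} {e : Pt × Pt} :
    e ∈ cns Q l ↔ (e.1 ∈ pts Q l ∧ e.2 ∈ pts Q l) ∧ e.1.1 < e.2.1 ∧
      ∀ s ∈ pts Q l, ¬ (e.1.1 < s.1 ∧ s.1 < e.2.1) := by
  unfold cns; rw [Finset.mem_filter, Finset.mem_product]

variable {Q : Finset Pt} {l : ℝ × ℝ}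

lemma cns_card (hQ : ∀ u ∈ Q, ∀ w ∈ Q, u.1 = w.1 → u = w) :
    (pts Q l).card - 1 ≤ (cns Q l).card := by
  rcases (pts Q l).eq_empty_or_nonempty with h | h
  · rw [h]; simp
  obtain ⟨m, hm, hmax⟩ := (pts Q l).exists_max_image (fun u => u.1) h
  rw [← Finset.card_erase_of_mem hm]
  have hex : ∀ q ∈ (pts Q l).erase m, ∃ r, (q, r) ∈ cns Q l := by
    intro q hq
    rw [Finset.mem_erase] at hq
    set U := (pts Q l).filter fun s => q.1 < s.1 with hU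
    have hne : U.Nonempty := by
      refine ⟨m, ?_⟩
      rw [hU, Finset.mem_filter]
      refine ⟨hm, lt_of_le_of_ne (hmax q hq.2) ?_⟩
      intro h1
      exact hq.1 (hQ q (mem_pts.1 hq.2).1 m (mem_pts.1 hm).1 h1)
    obtain ⟨r, hr, hmin⟩ := U.exists_min_image (fun u => u.1) hne
    rw [hU, Finset.mem_filter] at hr
    refine ⟨r, mem_cns.2 ⟨⟨hq.2, hr.1⟩, hr.2, ?_⟩⟩
    rintro s hs ⟨h1, h2⟩
    have h1' : q.1 < s.1 := h1
    have h2' : s.1 < r.1 := h2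
    have := hmin s (by rw [hU, Finset.mem_filter]; exact ⟨hs, h1'⟩)
    exact absurd h2' (not_lt.2 this)
  choose! r hr using hex
  apply Finset.card_le_card_of_injOn (fun q => (q, r q))
  · intro q hq; exact hr q hq
  · intro q _ q' _ h
    exact congrArg Prod.fst h

lemma cns_unique (hQ : ∀ u ∈ Q, ∀ w ∈ Q, u.1 = w.1 → u = w) {e f : Pt × Pt}
    (he : e ∈ cns Q l) (hf : f ∈ cns Q l) {x : ℝ} (h1 : e.1.1 < x) (h2 : x < e.2.1)
    (h3 : f.1.1 < x) (h4 : x < f.2.1) : e = f := by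
  rw [mem_cns] at he hf
  have a1 : e.1.1 = f.1.1 := by
    rcases lt_trichotomy e.1.1 f.1.1 with h | h | h
    · exact absurd ⟨h, h3.trans h2⟩ (he.2.2 f.1 hf.1.1)
    · exact h
    · exact absurd ⟨h, h1.trans h4⟩ (hf.2.2 e.1 he.1.1)
  have a2 : e.2.1 = f.2.1 := by
    rcases lt_trichotomy e.2.1 f.2.1 with h | h | h
    · exact absurd ⟨h3.trans h2, h⟩ (hf.2.2 e.2 he.1.2)
    · exact h
    · exact absurd ⟨h1.trans h4, h⟩ (he.2.2 f.2 hf.1.2)
  exact Prod.ext (hQ _ (mem_pts.1 he.1.1).1 _ (mem_pts.1 hf.1.1).1 a1)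
    (hQ _ (mem_pts.1 he.1.2).1 _ (mem_pts.1 hf.1.2).1 a2)

lemma cns_slp {e : Pt × Pt} (he : e ∈ cns Q l) : slp e = l.1 := by
  rw [mem_cns, mem_pts, mem_pts] at he
  have h1 := he.1.1.2
  have h2 := he.1.2.2
  have h3 := he.2.1
  unfold slp
  rw [div_eq_iff (by linarith), h1, h2]
  ring

lemma cns_val {e : Pt × Pt} (he : e ∈ cns Q l) (x : ℝ) : val e x = l.1 * x + l.2 := by
  unfold val
  rw [cns_slp he]
  rw [mem_cns, mem_pts, mem_pts] at he
  rw [he.1.2.2]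
  ring

lemma line_eq {l l' : ℝ × ℝ} {x y : ℝ} (hxy : x ≠ y) (h1 : l.1 * x + l.2 = l'.1 * x + l'.2)
    (h2 : l.1 * y + l.2 = l'.1 * y + l'.2) : l = l' := by
  have h3 : (l.1 - l'.1) * (x - y) = 0 := by linear_combination h1 - h2
  have h4 : l.1 = l'.1 := by
    rcases mul_eq_zero.1 h3 with h | h
    · linarith
    · exact absurd (by linarith) hxy
  refine Prod.ext h4 ?_
  rw [h4] at h1
  linarith

lemma cns_disj {l' : ℝ × ℝ} {e : Pt × Pt} (he : e ∈ cns Q l) (he' : e ∈ cns Q l') : l = l' := by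
  have h0 : e.1.1 ≠ e.2.1 := (mem_cns.1 he).2.1.ne
  exact line_eq h0 (by rw [← cns_val he, ← cns_val he']) (by rw [← cns_val he, ← cns_val he'])

/-- the graph of consecutive points -/
def gr (Q : Finset Pt) (L : Finset (ℝ × ℝ)) : Finset (Pt × Pt) := L.biUnion fun l => cns Q l

lemma mem_gr {L : Finset (ℝ × ℝ)} {e : Pt × Pt} : e ∈ gr Q L ↔ ∃ l ∈ L, e ∈ cns Q l := by
  unfold gr; rw [Finset.mem_biUnion]

lemma gr_card (hQ : ∀ u ∈ Q, ∀ w ∈ Q, u.1 = w.1 → u = w) (L : Finset (ℝ × ℝ)) :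
    ∑ l ∈ L, ((pts Q l).card - 1) ≤ (gr Q L).card := by
  unfold gr
  rw [Finset.card_biUnion]
  · exact Finset.sum_le_sum fun l _ => cns_card hQ
  · intro l _ l' _ hne
    rw [Function.onFun, Finset.disjoint_left]
    intro e he he'
    exact hne (cns_disj he he')

lemma gr_drawing (hQ : ∀ u ∈ Q, ∀ w ∈ Q, u.1 = w.1 → u = w) (L : Finset (ℝ × ℝ)) :
    Drawing Q (gr Q L) where
  left_mem e he := by
    obtain ⟨l, _, h⟩ := mem_gr.1 he
    exact (mem_pts.1 (mem_cns.1 h).1.1).1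
  right_mem e he := by
    obtain ⟨l, _, h⟩ := mem_gr.1 he
    exact (mem_pts.1 (mem_cns.1 h).1.2).1
  lt e he := by
    obtain ⟨l, _, h⟩ := mem_gr.1 he
    exact (mem_cns.1 h).2.1
  inj := hQ
  novert e he u hu h1 h2 h3 := by
    obtain ⟨l, _, h⟩ := mem_gr.1 he
    rw [cns_val h] at h3
    exact (mem_cns.1 h).2.2 u (mem_pts.2 ⟨hu, h3⟩) ⟨h1, h2⟩

lemma gr_crs (hQ : ∀ u ∈ Q, ∀ w ∈ Q, u.1 = w.1 → u = w) (L : Finset (ℝ × ℝ)) :
    (crs (gr Q L)).card ≤ L.card ^ 2 := by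
  have hex : ∀ e ∈ gr Q L, ∃ l, l ∈ L ∧ e ∈ cns Q l := fun e he => by
    obtain ⟨l, h1, h2⟩ := mem_gr.1 he
    exact ⟨l, h1, h2⟩
  choose! F hF using hex
  have : (crs (gr Q L)).card ≤ (L ×ˢ L).card := by
    apply Finset.card_le_card_of_injOn (fun p => (F p.1, F p.2))
    · intro p hp
      rw [Finset.mem_coe, mem_crs] at hp
      rw [Finset.mem_coe, Finset.mem_product]
      exact ⟨(hF _ hp.1.1).1, (hF _ hp.1.2).1⟩
    · intro p hp q hq h
      rw [Finset.mem_coe, mem_crs] at hp hq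
      have e1 : F p.1 = F q.1 := congrArg Prod.fst h
      have e2 : F p.2 = F q.2 := congrArg Prod.snd h
      obtain ⟨⟨hp1, hp2⟩, hpne, x, h1, h2, h3, h4, h5⟩ := hp
      obtain ⟨⟨hq1, hq2⟩, hqne, y, g1, g2, g3, g4, g5⟩ := hq
      have P1 := (hF _ hp1).2
      have P2 := (hF _ hp2).2
      have Q1 := (hF _ hq1).2
      have Q2 := (hF _ hq2).2
      rw [← e1] at Q1
      rw [← e2] at Q2
      have hne : F p.1 ≠ F p.2 := by
        intro h
        rw [← h] at P2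
        exact hpne (cns_unique hQ P1 P2 h1 h2 h3 h4)
      rw [cns_val P1, cns_val P2] at h5
      rw [cns_val Q1, cns_val Q2] at g5
      have hxy : x = y := by
        by_contra hxy
        exact hne (line_eq hxy h5 g5)
      subst hxy
      exact Prod.ext (cns_unique hQ P1 Q1 h1 h2 g1 g2) (cns_unique hQ P2 Q2 h3 h4 g3 g4)
  rw [Finset.card_product] at this
  rw [sq]
  exact this

/-- **Szemerédi–Trotter**, core form. -/
theorem core (hQ : ∀ u ∈ Q, ∀ w ∈ Q, u.1 = w.1 → u = w) (L : Finset (ℝ × ℝ)) :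
    (∑ l ∈ L, ((pts Q l).card - 1) ≤ 8 * Q.card) ∨
    (∑ l ∈ L, ((pts Q l).card - 1)) ^ 3 ≤ 128 * Q.card ^ 2 * L.card ^ 2 := by
  have h1 := gr_card hQ L
  rcases le_total (gr Q L).card (8 * Q.card) with h | h
  · exact Or.inl (h1.trans h)
  · right
    have h2 := (gr_drawing hQ L).crossing_lemma h
    have h3 := gr_crs hQ L
    calc (∑ l ∈ L, ((pts Q l).card - 1)) ^ 3 ≤ (gr Q L).card ^ 3 := Nat.pow_le_pow_left h1 3
      _ ≤ 128 * Q.card ^ 2 * (crs (gr Q L)).card := h2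
      _ ≤ _ := Nat.mul_le_mul_left _ h3

end

end ST
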