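import Mathlib

/-!
# A linear bound for the number of edges of a plane straight line graph

Vertices are points of `ℝ × ℝ` with distinct first coordinates, edges are pairs `(a, b)` with
`a.1 < b.1`. If no two edges cross and no vertex lies inside an edge, there are at most
`4 |V|` edges.
-/

namespace ST

/-- the plane -/
abbrev Pt := ℝ × ℝ

/-- slope of an edge -/
noncomputable def slp (e : Pt × Pt) : ℝ := (e.2.2 - e.1.2) / (e.2.1 - e.1.1)

/-- the line of an edge, as a function -/
noncomputable def val (e : Pt × Pt) (x : ℝ) : ℝ := e.2.2 + slp e * (x - e.2.1)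

/-- two edges cross at an interior point of both -/
def Cross (e f : Pt × Pt) : Prop :=
  ∃ x, e.1.1 < x ∧ x < e.2.1 ∧ f.1.1 < x ∧ x < f.2.1 ∧ val e x = val f x

/-- A straight line drawing: edges go to the right, no vertex lies inside an edge. -/
structure Drawing (V : Finset Pt) (E : Finset (Pt × Pt)) : Prop where
  left_mem : ∀ e ∈ E, e.1 ∈ V
  right_mem : ∀ e ∈ E, e.2 ∈ V
  lt : ∀ e ∈ E, e.1.1 < e.2.1
  inj : ∀ u ∈ V, ∀ w ∈ V, u.1 = w.1 → u = w
  novert : ∀ e ∈ E, ∀ u ∈ V, e.1.1 < u.1 → u.1 < e.2.1 → u.2 ≠ val e u.1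

lemma val_right (e : Pt × Pt) : val e e.2.1 = e.2.2 := by simp [val]

lemma val_left {e : Pt × Pt} (h : e.1.1 < e.2.1) : val e e.1.1 = e.1.2 := by
  have h1 : e.2.1 - e.1.1 ≠ 0 := by linarith
  unfold val slp
  field_simp
  ring

lemma Cross.symm {e f : Pt × Pt} (h : Cross e f) : Cross f e := by
  obtain ⟨x, h1, h2, h3, h4, h5⟩ := h
  exact ⟨x, h3, h4, h1, h2, h5.symm⟩

/-- sign change implies a crossing -/
lemma cross_of {e f : Pt × Pt} {p q : ℝ} (hpq : p < q) (he1 : e.1.1 ≤ p) (he2 : q ≤ e.2.1)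
    (hf1 : f.1.1 ≤ p) (hf2 : q ≤ f.2.1) (h1 : val e p < val f p) (h2 : val f q < val e q) :
    Cross e f := by
  have hd : 0 < (val e q - val f q) - (val e p - val f p) := by linarith
  set t : ℝ := (val f p - val e p) / ((val e q - val f q) - (val e p - val f p)) with ht
  have ht0 : 0 < t := div_pos (by linarith) hd
  have ht1 : t < 1 := by
    rw [ht, div_lt_one hd]; linarith
  refine ⟨p + t * (q - p), ?_, ?_, ?_, ?_, ?_⟩
  · nlinarith
  · nlinarith
  · nlinarith
  · nlinarith
  · have e1 : val e (p + t * (q - p)) = val e p + t * (val e q - val e p) := by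
      unfold val; ring
    have e2 : val f (p + t * (q - p)) = val f p + t * (val f q - val f p) := by
      unfold val; ring
    have e3 : t * ((val e q - val f q) - (val e p - val f p)) = val f p - val e p := by
      rw [ht]; field_simp
    rw [e1, e2]
    linarith

lemma val_lt {e f : Pt × Pt} (h : e.2 = f.2) (hs : slp f < slp e) {x : ℝ} (hx : x < e.2.1) :
    val e x < val f x := by
  unfold val
  rw [← h]
  nlinarith

lemma val_le {e f : Pt × Pt} (h : e.2 = f.2) (hs : slp f ≤ slp e) {x : ℝ} (hx : x < e.2.1) :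
    val e x ≤ val f x := by
  unfold val
  rw [← h]
  nlinarith

variable {V : Finset Pt} {E : Finset (Pt × Pt)}

namespace Drawing

lemma eq_of_slp (D : Drawing V E) {e f : Pt × Pt} (he : e ∈ E) (hf : f ∈ E) (h : e.2 = f.2)
    (hs : slp e = slp f) : e = f := by
  have key : ∀ e ∈ E, ∀ f ∈ E, e.2 = f.2 → slp e = slp f → ¬ e.1.1 < f.1.1 := by
    intro e he f hf h hs hlt
    have h1 := D.lt f hf
    have h2 : f.1.1 < e.2.1 := by rw [h]; exact h1
    apply D.novert e he f.1 (D.left_mem f hf) hlt h2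
    rw [← val_left h1]
    unfold val
    rw [hs, h]
  have h1 := key e he f hf h hs
  have h2 := key f hf e he h.symm hs.symm
  have h3 : e.1 = f.1 := D.inj _ (D.left_mem e he) _ (D.left_mem f hf)
    (le_antisymm (not_lt.1 h2) (not_lt.1 h1))
  exact Prod.ext h3 h

/-- `f` is the edge directly above `e` at their common right end -/
structure Next (E : Finset (Pt × Pt)) (e f : Pt × Pt) : Prop where
  he : e ∈ E
  hf : f ∈ E
  h : e.2 = f.2
  hs : slp f < slp e
  next : ∀ g ∈ E, g.2 = e.2 → slp g < slp e → slp g ≤ slp f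

/-- `u` is the last vertex in the wedge between `e` and `f` -/
structure Chg (V : Finset Pt) (E : Finset (Pt × Pt)) (e f : Pt × Pt) (u : Pt) : Prop
    extends Next E e f where
  hu : u ∈ V
  hlt : u.1 < e.2.1
  he1 : e.1.1 ≤ u.1
  hf1 : f.1.1 ≤ u.1
  hlo : val e u.1 ≤ u.2
  hup : u.2 ≤ val f u.1
  last : ∀ w ∈ V, u.1 < w.1 → w.1 < e.2.1 → ¬ (val e w.1 ≤ w.2 ∧ w.2 ≤ val f w.1)

lemma exists_next {e : Pt × Pt} (he : e ∈ E) (h : ∃ f ∈ E, f.2 = e.2 ∧ slp f < slp e) :
    ∃ f, Next E e f := by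
  classical
  set U := E.filter fun f => f.2 = e.2 ∧ slp f < slp e with hU
  have hne : U.Nonempty := by
    obtain ⟨f, hf, h1, h2⟩ := h
    exact ⟨f, by rw [hU, Finset.mem_filter]; exact ⟨hf, h1, h2⟩⟩
  obtain ⟨f, hfU, hmax⟩ := U.exists_max_image slp hne
  rw [hU, Finset.mem_filter] at hfU
  exact ⟨f, he, hfU.1, hfU.2.1.symm, hfU.2.2, fun g hg h1 h2 =>
    hmax g (by rw [hU, Finset.mem_filter]; exact ⟨hg, h1, h2⟩)⟩

lemma exists_chg (D : Drawing V E) {e f : Pt × Pt} (hn : Next E e f) :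
    ∃ u, Chg V E e f u := by
  classical
  set W := V.filter fun u => u.1 < e.2.1 ∧ e.1.1 ≤ u.1 ∧ f.1.1 ≤ u.1 ∧ val e u.1 ≤ u.2 ∧
    u.2 ≤ val f u.1 with hW
  have hne : W.Nonempty := by
    have h1 := D.lt e hn.he
    have h2 := D.lt f hn.hf
    rcases le_total f.1.1 e.1.1 with h | h
    · refine ⟨e.1, ?_⟩
      rw [hW, Finset.mem_filter]
      refine ⟨D.left_mem e hn.he, h1, le_rfl, h, (val_left h1).le, ?_⟩
      rw [← val_left h1]
      exact (val_lt hn.h hn.hs h1).le
    · refine ⟨f.1, ?_⟩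
      rw [hW, Finset.mem_filter]
      have h3 : f.1.1 < e.2.1 := by rw [hn.h]; exact h2
      refine ⟨D.left_mem f hn.hf, h3, h, le_rfl, ?_, (val_left h2).ge⟩
      rw [← val_left h2]
      exact (val_lt hn.h hn.hs h3).le
  obtain ⟨u, huW, hmax⟩ := W.exists_max_image (fun u => u.1) hne
  rw [hW, Finset.mem_filter] at huW
  obtain ⟨hu, h1, h2, h3, h4, h5⟩ := huW
  refine ⟨u, ⟨hn, hu, h1, h2, h3, h4, h5, fun w hw h6 h7 h8 => ?_⟩⟩
  have := hmax w (by
    rw [hW, Finset.mem_filter]
    exact ⟨hw, h7, h2.trans h6.le, h3.trans h6.le, h8.1, h8.2⟩)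
  exact absurd h6 (not_lt.2 this)

/-- the type of the charge -/
noncomputable def typ (e f : Pt × Pt) (u : Pt) : Fin 3 := by
  classical
  exact if u.2 = val e u.1 then 1 else if u.2 = val f u.1 then 2 else 0

lemma Chg.eq_left (D : Drawing V E) {e f : Pt × Pt} {u : Pt} (c : Chg V E e f u)
    (h : u.2 = val e u.1) : u = e.1 := by
  rcases c.he1.lt_or_eq with h1 | h1
  · exact absurd h (D.novert e c.he u c.hu h1 c.hlt)
  · exact D.inj _ c.hu _ (D.left_mem e c.he) h1.symm

lemma Chg.eq_left' (D : Drawing V E) {e f : Pt × Pt} {u : Pt} (c : Chg V E e f u)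
    (h : u.2 = val f u.1) : u = f.1 := by
  rcases c.hf1.lt_or_eq with h1 | h1
  · exact absurd h (D.novert f c.hf u c.hu h1 (by rw [← c.h]; exact c.hlt))
  · exact D.inj _ c.hu _ (D.left_mem f c.hf) h1.symm

/-- the strict inequalities used for the crossings -/
lemma Chg.strict {e f e' f' : Pt × Pt} {u : Pt} (c : Chg V E e f u) (c' : Chg V E e' f' u)
    (ht : typ e f u = typ e' f' u) : val e u.1 < val f' u.1 := by
  have h1 : val e u.1 < val f u.1 := val_lt c.h c.hs c.hlt
  have h2 : val e' u.1 < val f' u.1 := val_lt c'.h c'.hs c'.hlt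
  by_contra hcon
  have h3 : val e u.1 = u.2 := le_antisymm c.hlo (c'.hup.trans (not_lt.1 hcon))
  have h4 : u.2 = val f' u.1 := le_antisymm c'.hup ((not_lt.1 hcon).trans c.hlo)
  have e1 : typ e f u = 1 := by unfold typ; rw [if_pos h3.symm]
  have e2 : typ e' f' u = 2 := by
    unfold typ
    rw [if_neg (by rw [h4]; exact h2.ne'), if_pos h4]
  rw [e1, e2] at ht
  exact absurd ht (by decide)

lemma Chg.not_rlt (hcr : ∀ e ∈ E, ∀ f ∈ E, e ≠ f → ¬ Cross e f) (D : Drawing V E)
    {e f e' f' : Pt × Pt} {u : Pt} (c : Chg V E e f u)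
    (c' : Chg V E e' f' u) (ht : typ e f u = typ e' f' u) : ¬ e.2.1 < e'.2.1 := by
  intro hv
  have h1 := c.strict c' ht
  have h2 := c'.strict c ht.symm
  have h3 := c'.last e.2 (D.right_mem e c.he) c.hlt hv
  have hf2 : f.2.1 = e.2.1 := by rw [c.h]
  have hf2' : f'.2.1 = e'.2.1 := by rw [c'.h]
  rcases not_and_or.1 h3 with h4 | h4
  · -- below `e'` : the edge `f` crosses `e'`
    have h4' : e.2.2 < val e' e.2.1 := not_le.1 h4
    have h5 : val f e.2.1 = e.2.2 := by rw [c.h]; exact val_right f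
    refine hcr e' c'.he f c.hf ?_ (cross_of c.hlt c'.he1 hv.le c.hf1 (by rw [hf2]) h2 ?_)
    · intro h
      rw [h, hf2] at hv
      exact lt_irrefl _ hv
    · rw [h5]; exact h4'
  · have h4' : val f' e.2.1 < e.2.2 := not_le.1 h4
    refine hcr e c.he f' c'.hf ?_ (cross_of c.hlt c.he1 le_rfl c'.hf1 (by rw [hf2']; exact hv.le)
      h1 ?_)
    · intro h
      rw [h, hf2'] at hv
      exact lt_irrefl _ hv
    · rw [val_right]; exact h4'

lemma Chg.inj (hcr : ∀ e ∈ E, ∀ f ∈ E, e ≠ f → ¬ Cross e f) (D : Drawing V E)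
    {e f e' f' : Pt × Pt} {u : Pt} (c : Chg V E e f u)
    (c' : Chg V E e' f' u) (ht : typ e f u = typ e' f' u) : e = e' := by
  have hv : e.2 = e'.2 := D.inj _ (D.right_mem e c.he) _ (D.right_mem e' c'.he)
    (le_antisymm (not_lt.1 (c'.not_rlt hcr D c ht.symm)) (not_lt.1 (c.not_rlt hcr D c' ht)))
  have h1 := c.strict c' ht
  have h2 := c'.strict c ht.symm
  apply D.eq_of_slp c.he c'.he hv
  rcases lt_trichotomy (slp e) (slp e') with h | h | h
  · exfalso
    have h3 := c'.next e c.he hv h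
    have h4 : val f' u.1 ≤ val e u.1 := val_le (c'.h.symm.trans hv.symm) h3
      (by rw [← c'.h]; exact c'.hlt)
    exact absurd h1 (not_lt.2 h4)
  · exact h
  · exfalso
    have h3 := c.next e' c'.he hv.symm h
    have h4 : val f u.1 ≤ val e' u.1 := val_le (c.h.symm.trans hv) h3
      (by rw [← c.h]; exact c.hlt)
    exact absurd h2 (not_lt.2 h4)

/-- **Linear bound** for plane straight line graphs. -/
theorem card_le (D : Drawing V E) (hcr : ∀ e ∈ E, ∀ f ∈ E, e ≠ f → ¬ Cross e f) :
    E.card ≤ 4 * V.card := by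
  classical
  set T := E.filter fun e => ¬ ∃ f ∈ E, f.2 = e.2 ∧ slp f < slp e with hT
  set N := E.filter fun e => ∃ f ∈ E, f.2 = e.2 ∧ slp f < slp e with hN
  have hsum : N.card + T.card = E.card := by
    rw [hN, hT]; exact Finset.card_filter_add_card_filter_not _
  have hTV : T.card ≤ V.card := by
    apply Finset.card_le_card_of_injOn (fun e => e.2)
    · intro e he
      rw [hT, Finset.mem_coe, Finset.mem_filter] at he
      exact D.right_mem e he.1
    · intro e he f hf h
      rw [hT, Finset.mem_coe, Finset.mem_filter] at he hf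
      have h' : e.2 = f.2 := h
      apply D.eq_of_slp he.1 hf.1 h'
      rcases lt_trichotomy (slp e) (slp f) with h1 | h1 | h1
      · exact absurd ⟨e, he.1, h', h1⟩ hf.2
      · exact h1
      · exact absurd ⟨f, hf.1, h'.symm, h1⟩ he.2
  have hch : ∀ e ∈ N, ∃ f u, Chg V E e f u := by
    intro e he
    rw [hN, Finset.mem_filter] at he
    obtain ⟨f, hf⟩ := exists_next he.1 he.2
    obtain ⟨u, hu⟩ := D.exists_chg hf
    exact ⟨f, u, hu⟩
  choose! F U hFU using hch
  have hNV : N.card ≤ (V ×ˢ (Finset.univ : Finset (Fin 3))).card := by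
    apply Finset.card_le_card_of_injOn (fun e => (U e, typ e (F e) (U e)))
    · intro e he
      simp only [Finset.coe_product, Finset.coe_univ, Set.mem_prod, Finset.mem_coe, Set.mem_univ,
        and_true]
      exact (hFU e he).hu
    · intro e he e' he' h
      have h1 : U e = U e' := congrArg Prod.fst h
      have h2 : typ e (F e) (U e) = typ e' (F e') (U e') := congrArg Prod.snd h
      have c := hFU e he
      have c' := hFU e' he'
      rw [← h1] at c' h2
      exact c.inj hcr D c' h2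
  rw [Finset.card_product, Finset.card_univ, Fintype.card_fin] at hNV
  omega

end Drawing

end ST
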